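import Pool.Agent.W_700a23_h91.Defs
import Pool.Agent.W_700a23_h91.Final

/-! For every `k ≥ 4` there is a constant `C` such that every digraph on `n` vertices with
min-degeneracy at most `k - 2` has a `k`-dicolouring graph of diameter at most
`C n^(k-2) (log2 n + 1)`. -/

set_option autoImplicit false

namespace Pool.Agent.Results.MP_700a23_co.DiamBound

open Pool.Agent.C91

theorem result (k : ℕ) (hk : 4 ≤ k) :
    ∃ C : ℕ, ∀ (V : Type) [Fintype V] (A : V → V → Prop),
      (∀ v, ¬ A v v) → MinDegeneracyLE A (k - 2) →
      ∀ c c' : {c : V → Fin k // IsDicol A c},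
        (dicolGraph A k).Reachable c c' ∧
          (dicolGraph A k).dist c c' ≤
            C * Fintype.card V ^ (k - 2) * (Nat.log 2 (Fintype.card V) + 1) :=
  main k hk

end Pool.Agent.Results.MP_700a23_co.DiamBound
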